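import Pool.Agent.N173.BG.Stm

/-!
Project BG (helper173), part MOM: moments of an exponential sum.
-/

set_option autoImplicit false

namespace Pool.Agent.N91.BG

open Finset Complex Pool.Agent.TH858 Pool.Agent.TH858.GP Pool.Agent.N173.BG

variable {N : ℕ} [NeZero N]

lemma l2 {α : Type} [DecidableEq α] (P : Finset α) (s : α → ZMod N) :
    ∑ x : ZMod N, ‖∑ f ∈ P, ψ (x * s f)‖ ^ 2 =
      (N : ℝ) * (((P ×ˢ P).filter fun p => s p.1 = s p.2).card : ℝ) := by
  have h1 : ∑ x : ZMod N, ((‖∑ f ∈ P, ψ (x * s f)‖ ^ 2 : ℝ) : ℂ) =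
      (N : ℂ) * ((((P ×ˢ P).filter fun p => s p.1 = s p.2).card : ℕ) : ℂ) := by
    calc ∑ x : ZMod N, ((‖∑ f ∈ P, ψ (x * s f)‖ ^ 2 : ℝ) : ℂ)
        = ∑ x : ZMod N, ∑ p ∈ P ×ˢ P, ψ (x * (s p.1 - s p.2)) := by
          refine sum_congr rfl fun x _ => ?_
          have h1 : ((‖∑ f ∈ P, ψ (x * s f)‖ ^ 2 : ℝ) : ℂ) =
              (∑ f ∈ P, ψ (x * s f)) * (starRingEnd ℂ) (∑ f ∈ P, ψ (x * s f)) := by
            rw [Complex.mul_conj, Complex.normSq_eq_norm_sq]
          rw [h1, map_sum, sum_mul_sum, ← sum_product']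
          refine sum_congr rfl fun p _ => ?_
          rw [← ψ_neg, ← ψ_add]
          congr 1
          ring
      _ = ∑ p ∈ P ×ˢ P, ∑ x : ZMod N, ψ (x * (s p.1 - s p.2)) := sum_comm
      _ = ∑ p ∈ P ×ˢ P, (if s p.1 = s p.2 then (N : ℂ) else 0) := by
          refine sum_congr rfl fun p _ => ?_
          have := AddChar.sum_mulShift (R' := ℂ) (s p.1 - s p.2) (ZMod.isPrimitive_stdAddChar N)
          rw [ZMod.card] at this
          rw [this]
          simp only [sub_eq_zero]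
          split_ifs <;> simp
      _ = _ := by
          rw [← sum_filter, sum_const, nsmul_eq_mul, mul_comm]
  have h2 : ((∑ x : ZMod N, ‖∑ f ∈ P, ψ (x * s f)‖ ^ 2 : ℝ) : ℂ) =
      (((N : ℝ) * (((P ×ˢ P).filter fun p => s p.1 = s p.2).card : ℝ) : ℝ) : ℂ) := by
    push_cast
    push_cast at h1
    exact h1
  exact_mod_cast h2

lemma ψ_sum {ι : Type} (t : Finset ι) (f : ι → ZMod N) : ψ (∑ i ∈ t, f i) = ∏ i ∈ t, ψ (f i) := by
  classical
  induction t using Finset.induction_on with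
  | empty => simp [ψ_zero]
  | insert a t ha ih => rw [sum_insert ha, prod_insert ha, ψ_add, ih]

lemma cs {α β : Type} [DecidableEq α] [DecidableEq β] (P : Finset α) (T : Finset β) (s : α → β)
    (h : ∀ f ∈ P, s f ∈ T) :
    (P.card : ℝ) ^ 2 ≤ T.card * (((P ×ˢ P).filter fun p => s p.1 = s p.2).card : ℝ) := by
  have h1 : P.card = ∑ t ∈ T, (P.filter fun f => s f = t).card :=
    card_eq_sum_card_fiberwise h
  have h2 : ((P ×ˢ P).filter fun p => s p.1 = s p.2).card =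
      ∑ t ∈ T, (P.filter fun f => s f = t).card ^ 2 := by
    rw [card_eq_sum_card_fiberwise (f := fun p : α × α => s p.1) (t := T)]
    · refine sum_congr rfl fun t _ => ?_
      rw [sq, ← card_product]
      congr 1
      ext ⟨a, b⟩
      simp only [mem_filter, mem_product]
      constructor
      · rintro ⟨⟨⟨ha, hb⟩, hab⟩, hat⟩
        exact ⟨⟨ha, hat⟩, hb, hab ▸ hat⟩
      · rintro ⟨⟨ha, hat⟩, hb, hbt⟩
        exact ⟨⟨⟨ha, hb⟩, hat.trans hbt.symm⟩, hat⟩
    · intro p hp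
      rw [mem_coe, mem_filter, mem_product] at hp
      exact h _ hp.1.1
  rw [h1, h2]
  push_cast
  exact sq_sum_le_card_mul_sum_sq

theorem t_MOM : S_MOM := by
  intro N _ Q T j hT
  set P : Finset (Fin j → ZMod N) := Fintype.piFinset (fun _ : Fin j => Q) with hP
  have h1 : ∀ x : ZMod N, wt Q x ^ j = ‖∑ f ∈ P, ψ (x * ∑ i, f i)‖ ^ 2 := by
    intro x
    have e1 : (∑ y ∈ Q, ψ (x * y)) ^ j = ∑ f ∈ P, ψ (x * ∑ i, f i) := by
      have := Finset.prod_univ_sum (fun _ : Fin j => Q) (fun (_ : Fin j) (y : ZMod N) => ψ (x * y))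
      rw [prod_const, card_univ, Fintype.card_fin] at this
      rw [this]
      refine sum_congr rfl fun f _ => ?_
      rw [mul_sum]
      exact (ψ_sum _ _).symm
    rw [← e1, norm_pow, wt, ← pow_mul, ← pow_mul, mul_comm]
  have h2 := l2 P (fun f => ∑ i, f i)
  have h3 := cs P T (fun f => ∑ i, f i) (by
    intro f hf
    exact hT f (fun i => Fintype.mem_piFinset.1 hf i))
  have h4 : (P.card : ℝ) = (Q.card : ℝ) ^ j := by
    rw [hP, Fintype.card_piFinset]
    simp
  rw [h4, ← pow_mul, mul_comm j 2] at h3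
  simp_rw [h1]
  rw [h2]
  have h5 : (0 : ℝ) ≤ N := Nat.cast_nonneg N
  nlinarith [mul_le_mul_of_nonneg_left h3 h5]

end Pool.Agent.N91.BG
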